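import Pool.Agent.W739.CY.Stm

set_option autoImplicit false

namespace Pool.Agent.W566.CY

open Pool.Agent.W739.CY

section basic

variable {C : Type} [DecidableEq C]

omit [DecidableEq C] in
/-- `spl f w` only depends on the values of `f` at the splittings of `w` -/
theorem spl_congr {f g : List C → C → List C → ℝ} {w : List C}
    (h : ∀ (v : List C) (c : C) (u : List C), w = v ++ c :: u → f v c u = g v c u) :
    spl f w = spl g w := by
  induction w generalizing f g with
  | nil => rfl
  | cons x w ih =>
    unfold spl
    rw [h [] x w rfl, ih (f := fun v c u => f (x :: v) c u) (g := fun v c u => g (x :: v) c u)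
      (fun v c u hw => h (x :: v) c u (by rw [hw]; rfl))]

omit [DecidableEq C] in
theorem spl_zero (w : List C) : spl (fun _ _ _ => (0 : ℝ)) w = 0 := by
  induction w with
  | nil => rfl
  | cons x w ih =>
    unfold spl
    rw [ih, add_zero]

omit [DecidableEq C] in
theorem spl_eq_zero {f : List C → C → List C → ℝ} {w : List C}
    (h : ∀ (v : List C) (c : C) (u : List C), w = v ++ c :: u → f v c u = 0) :
    spl f w = 0 := by
  rw [spl_congr (g := fun _ _ _ => (0 : ℝ)) h, spl_zero]

omit [DecidableEq C] in
theorem spl_map {D : Type} (f : List D → D → List D → ℝ) (s : C → D) (w : List C) :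
    spl f (w.map s) = spl (fun v c u => f (v.map s) (s c) (u.map s)) w := by
  induction w generalizing f with
  | nil => rfl
  | cons x w ih =>
    rw [List.map_cons]
    unfold spl
    rw [ih]
    rfl

omit [DecidableEq C] in
theorem spl_mul_left (r : ℝ) (f : List C → C → List C → ℝ) (w : List C) :
    spl (fun v c u => r * f v c u) w = r * spl f w := by
  induction w generalizing f with
  | nil => simp [spl]
  | cons x w ih =>
    unfold spl
    rw [ih (fun v c u => f (x :: v) c u)]
    ring

omit [DecidableEq C] in
theorem spl_add (f g : List C → C → List C → ℝ) (w : List C) :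
    spl (fun v c u => f v c u + g v c u) w = spl f w + spl g w := by
  induction w generalizing f g with
  | nil => simp [spl]
  | cons x w ih =>
    unfold spl
    rw [ih (fun v c u => f (x :: v) c u) (fun v c u => g (x :: v) c u)]
    ring

omit [DecidableEq C] in
theorem ok_map (σ : Equiv.Perm C) (a b : Option C) : ok (a.map σ) (b.map σ) ↔ ok a b := by
  unfold ok
  have h1 : a.map σ = none ↔ a = none := Option.map_eq_none_iff
  have h2 : a.map σ = b.map σ ↔ a = b := (Option.map_injective σ.injective).eq_iff
  rw [h1, ne_eq, h2]

theorem Pr_map (σ : Equiv.Perm C) (w : List C) (a b : Option C) :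
    Pr (a.map σ) (w.map σ) (b.map σ) ↔ Pr a w b := by
  induction w generalizing a with
  | nil => exact ok_map σ a b
  | cons x w ih =>
    rw [List.map_cons]
    unfold Pr
    have h := ok_map σ a (some x)
    have h' := ih (some x)
    rw [Option.map_some] at h h'
    rw [h, h']

theorem Fn_map (σ : Equiv.Perm C) (p : ℝ) (n : ℕ) (a : Option C) (w : List C) (b : Option C) :
    Fn p n (a.map σ) (w.map σ) (b.map σ) = Fn p n a w b := by
  induction n generalizing w with
  | zero =>
    unfold Fn
    by_cases h : Pr a w b
    · rw [if_pos h, if_pos ((Pr_map σ w a b).2 h)]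
    · rw [if_neg h, if_neg (fun h' => h ((Pr_map σ w a b).1 h'))]
  | succ n ih =>
    unfold Fn
    by_cases h : Pr a w b
    · rw [if_pos h, if_pos ((Pr_map σ w a b).2 h), spl_map]
      congr 1
      refine spl_congr fun v c u _ => ?_
      rw [List.length_map, ← List.map_append, ih]
    · rw [if_neg h, if_neg (fun h' => h ((Pr_map σ w a b).1 h'))]

theorem F_not_Pr (p : ℝ) (a b : Option C) (w : List C) (h : ¬ Pr a w b) : F p a w b = 0 := by
  unfold F
  cases w.length with
  | zero => unfold Fn; rw [if_neg h]
  | succ n => unfold Fn; rw [if_neg h]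

/-- the deletion recursion -/
theorem F_del (p : ℝ) (hp : Good p) (a b : Option C) (w : List C) (hw : w ≠ []) (h : Pr a w b) :
    (1 - p ^ w.length) * F p a w b = spl (fun v _ u => p ^ u.length * F p a (v ++ u) b) w := by
  obtain ⟨n, hn⟩ : ∃ n, w.length = n + 1 := ⟨w.length - 1, by
    have := List.length_pos_iff.2 hw
    omega⟩
  have hF : F p a w b = spl (fun v _ u => p ^ u.length * Fn p n a (v ++ u) b) w / (1 - p ^ (n + 1)) := by
    unfold F
    rw [hn]
    conv_lhs => unfold Fn
    rw [if_pos h]
  rw [hF, hn, mul_div_cancel₀ _ (hp.sub n)]
  refine spl_congr fun v c u hs => ?_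
  have hl : (v ++ u).length = n := by
    have := congrArg List.length hs
    simp only [List.length_append, List.length_cons] at this ⊢
    omega
  unfold F
  rw [hl]

theorem F_not_ok (p : ℝ) (hp : Good p) (a b : Option C) (h : ¬ ok a b) (w : List C) :
    F p a w b = 0 := by
  induction hn : w.length generalizing w with
  | zero =>
    have hw : w = [] := List.length_eq_zero_iff.1 hn
    subst hw
    exact F_not_Pr p a b [] h
  | succ n ih =>
    by_cases hP : Pr a w b
    · have hw : w ≠ [] := by
        intro h0
        rw [h0] at hn
        simp at hn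
      have h1 := F_del p hp a b w hw hP
      have h2 : spl (fun v _ u => p ^ u.length * F p a (v ++ u) b) w = 0 := by
        refine spl_eq_zero fun v c u hs => ?_
        have hl : (v ++ u).length = n := by
          have := congrArg List.length hs
          simp only [List.length_append, List.length_cons] at this ⊢
          omega
        rw [ih (v ++ u) hl, mul_zero]
      rw [h2, hn] at h1
      exact (mul_eq_zero.1 h1).resolve_left (hp.sub n)
    · exact F_not_Pr p a b w hP

end basic

theorem t_DEL : S_DEL := by
  intro C _ p hp a b
  refine ⟨?_, fun w h => F_not_Pr p a b w h, fun w h => F_not_ok p hp a b h w,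
    fun w hw h => F_del p hp a b w hw h, fun w σ => ?_⟩
  · unfold F
    show Fn p 0 a [] b = _
    unfold Fn
    by_cases h : ok a b
    · rw [if_pos h, if_pos (show Pr a [] b from h)]
    · rw [if_neg h, if_neg (show ¬ Pr a [] b from h)]
  · unfold F
    rw [List.length_map]
    exact Fn_map σ p w.length a w b

end Pool.Agent.W566.CY
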